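import Pool.Agent.Lib.MP_e6fef2_lc.Chain

/-!
# Modules GEN and PEC
-/

universe u

open Cardinal Filter

namespace Pool.Agent.Lib.MP_e6fef2_lc.H69

open Pool.Agent.Lib.MP_e6fef2_lc

section

variable {A C : Type u} [CompleteBooleanAlgebra A] [CompleteBooleanAlgebra C]

theorem ce_iSup {f : A → C} (hf : IsCE f) {ι : Sort*} (a : ι → A) :
    f (⨆ i, a i) = ⨆ i, f (a i) := by
  rw [← sSup_range, hf.sSup, iSup_range]

theorem ce_iInf {f : A → C} (hf : IsCE f) {ι : Sort*} (a : ι → A) :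
    f (⨅ i, a i) = ⨅ i, f (a i) := by
  have h1 : (⨅ i, a i) = (⨆ i, (a i)ᶜ)ᶜ := by
    rw [compl_iSup]; simp
  rw [h1, hf.compl, ce_iSup hf, compl_iSup]
  congr 1
  funext i
  rw [hf.compl, compl_compl]

theorem ce_top {f : A → C} (hf : IsCE f) : f ⊤ = ⊤ := by
  have h := ce_iInf hf (fun x : PEmpty.{1} => (x.elim : A))
  rwa [iInf_of_empty, iInf_of_empty] at h

end

theorem gen_le {A : Type u} [CompleteBooleanAlgebra A] {N : Set El.{u}} {D : Set A} (hD : In N D)
    (hs : sSup D = ⊤) : gen A N ≤ ⨆ (d : A) (_ : d ∈ D) (_ : In N d), d := by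
  unfold gen
  exact iInf_le_of_le D (iInf_le_of_le hD (iInf_le_of_le hs le_rfl))

theorem gen1 (h : ClubStatement.{u}) (A : Type u) [CompleteBooleanAlgebra A] (T : Type u) :
    ∀ᶠ N in club, ∀ φ : T → A, In N φ →
      gen A N ⊓ ⨆ t, φ t ≤ ⨆ (t : T) (_ : In N t), φ t := by
  classical
  obtain ⟨-, -, -, -, -, hfun, hfun2, -⟩ := h
  rcases isEmpty_or_nonempty T with hT | hT
  · filter_upwards with N φ _
    simp
  have e1 := hfun (T → A) (Set A) (fun φ => Set.range φ ∪ {(⨆ t, φ t)ᶜ})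
  have e2 := hfun2 (T → A) A T (fun φ a => Classical.epsilon fun t => φ t = a)
  filter_upwards [e1, e2] with N h1 h2 φ hφ
  have hD := h1 φ hφ
  have htop : sSup (Set.range φ ∪ {(⨆ t, φ t)ᶜ}) = ⊤ := by
    rw [sSup_union, sSup_range, sSup_singleton, sup_compl_eq_top]
  have hle : gen A N ≤ (⨆ (t : T) (_ : In N t), φ t) ⊔ (⨆ t, φ t)ᶜ := by
    refine (gen_le hD htop).trans ?_
    refine iSup_le fun d => iSup_le fun hd => iSup_le fun hN => ?_
    rcases hd with ⟨t, rfl⟩ | hd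
    · have h3 : φ (Classical.epsilon fun t' => φ t' = φ t) = φ t :=
        Classical.epsilon_spec (p := fun t' => φ t' = φ t) ⟨t, rfl⟩
      have h4 := h2 φ (φ t) hφ hN
      refine le_sup_of_le_left ?_
      calc φ t = φ (Classical.epsilon fun t' => φ t' = φ t) := h3.symm
        _ ≤ ⨆ (t : T) (_ : In N t), φ t :=
            le_iSup₂ (f := fun (t : T) (_ : In N t) => φ t) _ h4
    · rw [Set.mem_singleton_iff] at hd
      rw [hd]
      exact le_sup_right
  calc gen A N ⊓ ⨆ t, φ t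
      ≤ ((⨆ (t : T) (_ : In N t), φ t) ⊔ (⨆ t, φ t)ᶜ) ⊓ ⨆ t, φ t :=
        inf_le_inf_right _ hle
    _ ≤ _ := by
        rw [inf_sup_right, compl_inf_self, sup_bot_eq]
        exact inf_le_left

theorem gen2 (h : ClubStatement.{u}) (A : Type u) [CompleteBooleanAlgebra A] (C : Type u)
    [CompleteBooleanAlgebra C] (f : A → C) (hf : IsCE f) :
    ∀ᶠ N in club, gen C N ≤ f (gen A N) := by
  classical
  obtain ⟨-, -, -, -, -, hfun, hfun2, -⟩ := h
  have e1 := hfun (Set A) (Set C) (fun D => f '' D)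
  have e2 := hfun C A (Function.invFun f)
  filter_upwards [e1, e2] with N h1 h2
  have hR : f (gen A N) = ⨅ (D : Set A) (_ : In N D) (_ : sSup D = ⊤),
      ⨆ (d : A) (_ : d ∈ D) (_ : In N d), f d := by
    unfold gen
    simp only [ce_iInf hf, ce_iSup hf]
  rw [hR]
  refine le_iInf fun D => le_iInf fun hD => le_iInf fun hs => ?_
  have htop : sSup (f '' D) = ⊤ := by
    rw [sSup_image, ← hf.sSup, hs, ce_top hf]
  refine (gen_le (h1 D hD) htop).trans ?_
  refine iSup_le fun c => iSup_le fun hc => iSup_le fun hN => ?_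
  obtain ⟨d, hd, rfl⟩ := hc
  have h3 := h2 _ hN
  rw [Function.leftInverse_invFun hf.inj d] at h3
  exact le_iSup_of_le d (le_iSup_of_le hd (le_iSup_of_le h3 le_rfl))

/-- GEN. -/
theorem genM (h : ClubStatement.{u}) : GenStatement.{u} := fun A _ =>
  ⟨fun T => gen1 h A T, fun C _ f hf => gen2 h A C f hf⟩

/-- PEC. -/
theorem pec (h : ClubStatement.{u}) (hA : AlgStatement.{u}) (hA2 : Alg2Statement.{u})
    (hG : GenStatement.{u}) : PecStatement.{u} := by
  classical
  intro A B C _ _ _ f g hf hg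
  obtain ⟨-, -, -, -, -, hfun, -⟩ := h
  obtain ⟨-, hc, -⟩ := hA2 A B C f g hf hg
  obtain ⟨-, -, -, -, -, -, -, -, -, -, -, -, fmono, -⟩ := hA A B f hf
  obtain ⟨-, -, -, -, -, -, -, -, -, -, gadj, gf, gmono, -, -, -, gres, -⟩ := hA B C g hg
  refine ⟨fun h1 h2 => ?_, fun h1 => ?_, ?_⟩
  · filter_upwards [h1, h2, hfun C B (prj g)] with N e1 e2 e3 c hN
    rw [hc, hc]
    exact (e1 _ (e3 c hN)).trans (fmono _ _ (e2 c hN))
  · filter_upwards [h1, (hG B).2 C g hg, hfun B C g] with N e1 e2 e3 b hN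
    have h4 := e1 _ (e3 b hN)
    rw [hc, hc, gf, gres] at h4
    refine h4.trans (fmono _ _ (inf_le_inf_right _ ?_))
    exact (gadj _ _).2 e2
  · have hid : ∀ c : A, prj (fun a : A => a) c = c := fun c =>
      le_antisymm (sInf_le le_rfl) (le_sInf fun _ hb => hb)
    filter_upwards with N c _
    rw [hid, hid]

end Pool.Agent.Lib.MP_e6fef2_lc.H69
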